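import Pool.Agent.Helper3.Cop.Latin

/-!
# Mixtures of cyclic copulas with several distribution functions

`H r` are distribution functions on the unit interval whose mixture with the weights `th r` is the
identity; coordinates are reflected (`a = 1 - x`).
-/

set_option autoImplicit false

namespace Pool.Agent.Helper21.Cn

open MeasureTheory Finset Pool.Agent.Helper43.Copula Pool.Agent.Helper3.Cop

variable {n : ℕ}

/-- the copula: with probability `th r / n` the reflected coordinate `k` has, under `H r`, its value in the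
cell `k + i (mod n)` -/
noncomputable def fam (n : ℕ) (s : Finset ℕ) (th : ℕ → ℝ) (H : ℕ → ℝ → ℝ) (x : Fin n → ℝ) : ℝ :=
  (1 / (n : ℝ)) * ∑ i ∈ s ×ˢ (univ : Finset (Fin n)),
    ∏ k, (if k = (⟨0, Fin.pos i.2⟩ : Fin n) then th i.1 else 1) *
      clamp (n * (1 - H i.1 (1 - x k)) - cell n i.2 k)

structure Data (n : ℕ) (s : Finset ℕ) (th : ℕ → ℝ) (H : ℕ → ℝ → ℝ) : Prop where
  th_nonneg : ∀ r ∈ s, 0 ≤ th r
  zero : ∀ r ∈ s, H r 0 = 0
  one : ∀ r ∈ s, H r 1 = 1
  mono : ∀ r ∈ s, ∀ a b : ℝ, 0 ≤ a → a ≤ b → b ≤ 1 → H r a ≤ H r b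
  mix : ∀ a : ℝ, 0 ≤ a → a ≤ 1 → ∑ r ∈ s, th r * H r a = a

theorem Data.sum_th {s : Finset ℕ} {th : ℕ → ℝ} {H : ℕ → ℝ → ℝ} (h : Data n s th H) :
    ∑ r ∈ s, th r = 1 := by
  have := h.mix 1 zero_le_one le_rfl
  rw [← this]
  exact sum_congr rfl fun r hr => by rw [h.one r hr, mul_one]

theorem prod_ite_th (th : ℝ) (k0 : Fin n) (g : Fin n → ℝ) :
    ∏ k, (if k = k0 then th else 1) * g k = th * ∏ k, g k := by
  rw [prod_mul_distrib, prod_ite_eq' univ k0 (fun _ => th)]
  simp

theorem fam_eq (s : Finset ℕ) (th : ℕ → ℝ) (H : ℕ → ℝ → ℝ) (x : Fin n → ℝ) :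
    fam n s th H x = (1 / (n : ℝ)) * ∑ r ∈ s, th r * ∑ i : Fin n,
      ∏ k, clamp (n * (1 - H r (1 - x k)) - cell n i k) := by
  unfold fam
  congr 1
  rw [sum_product]
  refine sum_congr rfl fun r _ => ?_
  rw [mul_sum]
  exact sum_congr rfl fun i _ => prod_ite_th _ _ _

theorem isCopula_fam (hn : 1 ≤ n) {s : Finset ℕ} {th : ℕ → ℝ} {H : ℕ → ℝ → ℝ}
    (h : Data n s th H) : IsCopula n (fam n s th H) where
  range := by
    intro x hx
    have hn' : (0 : ℝ) < n := by exact_mod_cast hn
    rw [fam_eq]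
    have h0 : ∀ r ∈ s, 0 ≤ th r * ∑ i : Fin n,
        ∏ k, clamp (n * (1 - H r (1 - x k)) - cell n i k) := fun r hr =>
      mul_nonneg (h.th_nonneg r hr) (sum_nonneg fun i _ => prod_nonneg fun k _ => clamp_nonneg _)
    constructor
    · exact mul_nonneg (by positivity) (sum_nonneg h0)
    · rw [one_div, inv_mul_le_iff₀ hn', mul_one]
      calc ∑ r ∈ s, th r * ∑ i : Fin n, ∏ k, clamp (n * (1 - H r (1 - x k)) - cell n i k)
          ≤ ∑ r ∈ s, th r * n := by
            refine sum_le_sum fun r hr => mul_le_mul_of_nonneg_left ?_ (h.th_nonneg r hr)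
            calc _ ≤ ∑ i : Fin n, (1 : ℝ) := sum_le_sum fun i _ =>
                  prod_le_one (fun k _ => clamp_nonneg _) fun k _ => clamp_le_one _
              _ = n := by simp
        _ = n := by rw [← sum_mul, h.sum_th, one_mul]
  grounded := by
    rintro x - ⟨k, hk⟩
    rw [fam_eq, sum_eq_zero, mul_zero]
    intro r hr
    rw [sum_eq_zero, mul_zero]
    intro i _
    apply prod_eq_zero (mem_univ k)
    apply clamp_of_nonpos
    rw [hk, sub_zero, h.one r hr]
    simp
  margin := by
    intro x hx k hk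
    have hn' : (0 : ℝ) < n := by exact_mod_cast hn
    have h1 : ∀ r ∈ s, ∀ i : Fin n, ∏ l, clamp (n * (1 - H r (1 - x l)) - cell n i l)
        = clamp (n * (1 - H r (1 - x k)) - cell n i k) := by
      intro r hr i
      rw [← mul_prod_erase _ _ (mem_univ k), prod_eq_one, mul_one]
      intro l hl
      rw [hk l (ne_of_mem_erase hl), sub_self, h.zero r hr]
      apply clamp_of_one_le
      have := cell_lt i l
      have h2 : (cell n i l : ℝ) + 1 ≤ n := by exact_mod_cast this
      linarith
    have hx0 := (hx k).1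
    have hx1 := (hx k).2
    rw [fam_eq]
    have h2 : ∀ r ∈ s, th r * ∑ i : Fin n, ∏ l, clamp (n * (1 - H r (1 - x l)) - cell n i l)
        = n * (th r * (1 - H r (1 - x k))) := by
      intro r hr
      have ha : 0 ≤ 1 - H r (1 - x k) := by
        have := h.mono r hr (1 - x k) 1 (by linarith) (by linarith) le_rfl
        rw [h.one r hr] at this
        linarith
      have hb : 1 - H r (1 - x k) ≤ 1 := by
        have := h.mono r hr 0 (1 - x k) le_rfl (by linarith) (by linarith)
        rw [h.zero r hr] at this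
        linarith
      rw [sum_congr rfl fun i _ => h1 r hr i,
        sum_cell k (fun j => clamp (n * (1 - H r (1 - x k)) - j)), sum_clamp _ _ (by positivity),
        min_eq_left (by nlinarith)]
      ring
    rw [sum_congr rfl h2, ← mul_sum]
    have h3 : ∑ r ∈ s, th r * (1 - H r (1 - x k)) = x k := by
      have := h.mix (1 - x k) (by linarith) (by linarith)
      simp only [mul_sub, mul_one, sum_sub_distrib, h.sum_th, this]
      ring
    rw [h3]
    field_simp
  increasing := by
    intro u hu v hv huv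
    have h' : boxVolume (fam n s th H) u v = (1 / (n : ℝ)) * ∑ i ∈ s ×ˢ (univ : Finset (Fin n)),
        boxVolume (fun x => ∏ k, (if k = (⟨0, Fin.pos i.2⟩ : Fin n) then th i.1 else 1) *
          clamp (n * (1 - H i.1 (1 - x k)) - cell n i.2 k)) u v :=
      boxVolume_sum (s ×ˢ (univ : Finset (Fin n))) _ _ u v
    rw [h']
    refine mul_nonneg (by positivity) (sum_nonneg fun i hi => ?_)
    have hi1 : i.1 ∈ s := (mem_product.1 hi).1
    rw [boxVolume_prod (fun k t => (if k = (⟨0, Fin.pos i.2⟩ : Fin n) then th i.1 else 1) *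
          clamp (n * (1 - H i.1 (1 - t)) - cell n i.2 k))]
    refine prod_nonneg fun k _ => ?_
    rw [← mul_sub]
    refine mul_nonneg ?_ (sub_nonneg.mpr (clamp_mono ?_))
    · split_ifs
      · exact h.th_nonneg _ hi1
      · exact zero_le_one
    · have h1 := huv k
      have h2 := h.mono i.1 hi1 (1 - v k) (1 - u k) (by linarith [(hv k).2]) (by linarith)
        (by linarith [(hu k).1])
      have hn' : (0 : ℝ) ≤ n := by positivity
      nlinarith

/-- the boxes outside which `fam` vanishes -/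
def famBox (n : ℕ) (t : ℕ → ℝ) (i : Fin n) : Set (Fin n → ℝ) :=
  Set.Icc (fun k => 1 - t (n - cell n i k)) (fun _ => 1)

theorem volume_famBox (t : ℕ → ℝ) (ht : ∀ c, 0 ≤ t c) (i : Fin n) :
    volume (famBox n t i) = ENNReal.ofReal (∏ c ∈ range n, t (c + 1)) := by
  unfold famBox
  rw [Real.volume_Icc_pi, ← ENNReal.ofReal_prod_of_nonneg]
  · congr 1
    simp only [sub_sub_cancel]
    rw [prod_cell i (fun j => t (n - j)), ← prod_range_reflect]
    refine prod_congr rfl fun j hj => ?_
    have := mem_range.1 hj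
    congr 1
    omega
  · intro k _
    simpa using ht _

/-- **the bound for the mixture** -/
theorem fam_bound (hn : 1 ≤ n) {s : Finset ℕ} {th : ℕ → ℝ} {H : ℕ → ℝ → ℝ}
    (h : Data n s th H) (t : ℕ → ℕ → ℝ) (ht : ∀ r c, 0 ≤ t r c)
    (hH : ∀ r ∈ s, ∀ c ∈ Icc 1 n, ∀ a : ℝ, t r c < a → a ≤ 1 → (c : ℝ) ≤ n * H r a) :
    1 - (maxAgreement n).toReal ≤ n * ∑ r ∈ s, ∏ c ∈ range n, t r (c + 1) := by
  have hn' : (0 : ℝ) < n := by exact_mod_cast hn
  set V : Set (Fin n → ℝ) := ⋃ r ∈ s, ⋃ i : Fin n, famBox n (t r) i with hV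
  set A : Set (Fin n → ℝ) := cube n \ V with hA
  have hmeas : MeasurableSet V := Finset.measurableSet_biUnion _ fun r _ =>
    MeasurableSet.iUnion fun i => measurableSet_Icc
  have hpos : ∀ r, 0 ≤ ∏ c ∈ range n, t r (c + 1) := fun r => prod_nonneg fun c _ => ht r _
  have hvol : volume V ≤ ENNReal.ofReal (n * ∑ r ∈ s, ∏ c ∈ range n, t r (c + 1)) := by
    refine (measure_biUnion_finset_le _ _).trans ?_
    have h1 : ∀ r ∈ s, volume (⋃ i : Fin n, famBox n (t r) i) ≤
        ENNReal.ofReal (n * ∏ c ∈ range n, t r (c + 1)) := by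
      intro r _
      refine (measure_iUnion_fintype_le _ _).trans ?_
      simp only [volume_famBox (t r) (ht r)]
      rw [sum_const, card_univ, Fintype.card_fin, nsmul_eq_mul, ← ENNReal.ofReal_natCast,
        ← ENNReal.ofReal_mul (by positivity)]
    refine (sum_le_sum h1).trans ?_
    rw [← ENNReal.ofReal_sum_of_nonneg fun r _ => mul_nonneg hn'.le (hpos r), mul_sum]
  have h1 : volume A ≤ maxAgreement n := by
    apply le_sSup
    refine ⟨A, Set.sdiff_subset, isClosed_cube.measurableSet.diff hmeas,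
      ⟨fam n s th H, isCopula_fam hn h, ?_⟩, rfl⟩
    rintro x ⟨hx, hx'⟩
    have h0 : fam n s th H x = 0 := by
      rw [fam_eq, sum_eq_zero, mul_zero]
      intro r hr
      rw [sum_eq_zero, mul_zero]
      intro i _
      have h1 : ∃ k, x k < 1 - t r (n - cell n i k) := by
        by_contra hcon
        push Not at hcon
        exact hx' (Set.mem_biUnion hr (Set.mem_iUnion.mpr ⟨i, fun k => hcon k, fun k => (hx k).2⟩))
      obtain ⟨k, hk⟩ := h1
      apply prod_eq_zero (mem_univ k)
      apply clamp_of_nonpos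
      have hc := cell_lt i k
      have h2 := hH r hr (n - cell n i k) (mem_Icc.2 ⟨by omega, by omega⟩) (1 - x k)
        (by linarith) (by linarith [(hx k).1])
      rw [Nat.cast_sub hc.le] at h2
      linarith
    refine le_antisymm ?_ (lowerFrechet_le hn (isCopula_fam hn h) hx)
    rw [h0]
    exact le_max_right _ _
  have h2 : volume (cube n) ≤ volume A + volume V := by
    refine (measure_mono ?_).trans (measure_union_le _ _)
    intro x hx
    by_cases h : x ∈ V
    · exact Or.inr h
    · exact Or.inl ⟨hx, h⟩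
  rw [volume_cube] at h2
  have h3 := h2.trans (add_le_add h1 hvol)
  have h4 := ENNReal.toReal_mono (ENNReal.add_ne_top.mpr
    ⟨maxAgreement_ne_top, ENNReal.ofReal_ne_top⟩) h3
  rw [ENNReal.toReal_add maxAgreement_ne_top ENNReal.ofReal_ne_top,
    ENNReal.toReal_ofReal (mul_nonneg hn'.le (sum_nonneg fun r _ => hpos r))] at h4
  simp only [ENNReal.toReal_one] at h4
  linarith

end Pool.Agent.Helper21.Cn
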