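import Pool.Agent.Helper21.Cn.Pieces

/-!
# The parameters
-/

set_option autoImplicit false

namespace Pool.Agent.Helper21.Cn

open Finset

noncomputable def dl (r : ℕ) : ℝ := Real.exp (-(10 + 2 * (r : ℝ)))
noncomputable def th (S r : ℕ) : ℝ := if r < S then (1 / 2) ^ (r + 1) else (1 / 2) ^ S
noncomputable def lo (S r : ℕ) : ℝ := if r < S then dl r else 0
noncomputable def hi (r : ℕ) : ℝ := dl (r - 1)
noncomputable def bb : ℝ := Real.exp (-1)
noncomputable def ep (n S r : ℕ) : ℝ := if r < S then 10 + 3 * (r : ℝ) else 1 + Real.log n + 2 * S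
noncomputable def EE (n S : ℕ) : ℝ := ∑ r ∈ Ico 1 (S + 1), th S r * ep n S r
noncomputable def ee (n S r : ℕ) : ℝ := if r = 0 then -2 * EE n S else ep n S r
noncomputable def uu (S r : ℕ) : ℝ := dl 0 - (hi r - lo S r) / th S r
noncomputable def vv (n S r : ℕ) : ℝ := -((L (hi r) - L (lo S r)) / th S r) + L (dl 0) - ee n S r / n
noncomputable def pA : ℝ := L bb - L (dl 0)
noncomputable def pB : ℝ := L 1 - L bb
noncomputable def pp : ℝ := bb - dl 0
noncomputable def pq : ℝ := 1 - bb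
noncomputable def pD : ℝ := pp * pB - pq * pA
noncomputable def xx (n S r : ℕ) : ℝ := (uu S r * pB - pq * vv n S r) / pD
noncomputable def yy (n S r : ℕ) : ℝ := (pp * vv n S r - pA * uu S r) / pD

noncomputable def FF (φ : ℝ → ℝ) (n S r : ℕ) (a : ℝ) : ℝ :=
  1 / th S r * pc φ (lo S r) (hi r) a + (1 + xx n S r) * pc φ (dl 0) bb a +
    (1 + yy n S r) * pc φ bb 1 a

theorem dl_pos (r : ℕ) : 0 < dl r := Real.exp_pos _

theorem dl_anti {r s : ℕ} (h : r ≤ s) : dl s ≤ dl r := by
  unfold dl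
  apply Real.exp_le_exp.2
  have : (r : ℝ) ≤ s := by exact_mod_cast h
  linarith

theorem th_pos (S r : ℕ) : 0 < th S r := by
  unfold th
  split_ifs <;> positivity

theorem lo_nonneg (S r : ℕ) : 0 ≤ lo S r := by
  unfold lo
  split_ifs
  · exact (dl_pos r).le
  · exact le_rfl

theorem lo_le_hi (S r : ℕ) : lo S r ≤ hi r := by
  unfold lo hi
  split_ifs
  · exact dl_anti (Nat.sub_le r 1)
  · exact (dl_pos _).le

theorem hi_le (r : ℕ) : hi r ≤ dl 0 := dl_anti (Nat.zero_le _)

theorem exp_seven : Real.exp (-7) ≤ 1 / 1000 := by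
  rw [Real.exp_neg, ← one_div]
  apply one_div_le_one_div_of_le (by norm_num)
  have h1 := Real.exp_one_gt_d9
  have h2 : Real.exp 7 = Real.exp 1 ^ 7 := by rw [← Real.exp_nat_mul]; norm_num
  rw [h2]
  calc (1000 : ℝ) ≤ 2.7 ^ 7 := by norm_num
    _ ≤ _ := pow_le_pow_left₀ (by norm_num) (by linarith) 7

theorem dl_zero_le : dl 0 ≤ 1 / 20000 := by
  have : dl 0 = Real.exp (-10) := by simp [dl]
  rw [this, Real.exp_neg, ← one_div]
  apply one_div_le_one_div_of_le (by norm_num)
  have h1 := Real.exp_one_gt_d9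
  have h2 : Real.exp 10 = Real.exp 1 ^ 10 := by rw [← Real.exp_nat_mul]; norm_num
  rw [h2]
  calc (20000 : ℝ) ≤ 2.7 ^ 10 := by norm_num
    _ ≤ _ := pow_le_pow_left₀ (by norm_num) (by linarith) 10

theorem bb_gt : 0.3678 < bb := by
  have := Real.exp_neg_one_gt_d9
  unfold bb
  linarith

theorem bb_lt : bb < 0.3679 := by
  have := Real.exp_neg_one_lt_d9
  unfold bb
  linarith

theorem dl_le_bb : dl 0 ≤ bb := by linarith [dl_zero_le, bb_gt]

theorem L_one : L 1 = -1 := by simp [L]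
theorem L_bb : L bb = -2 * bb := by
  unfold L bb
  rw [Real.log_exp]
  ring
theorem L_dl (r : ℕ) : L (dl r) = -(11 + 2 * (r : ℝ)) * dl r := by
  unfold L dl
  rw [Real.log_exp]
  ring

theorem L_dl_zero : L (dl 0) = -11 * dl 0 := by
  rw [L_dl]
  simp

theorem pA_eq : pA = -2 * bb + 11 * dl 0 := by
  unfold pA
  rw [L_bb, L_dl_zero]
  ring

theorem pB_eq : pB = 2 * bb - 1 := by
  unfold pB
  rw [L_bb, L_one]
  ring

theorem pD_eq : pD = bb - 10 * dl 0 + 9 * bb * dl 0 := by
  unfold pD pp pq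
  rw [pA_eq, pB_eq]
  ring

theorem pD_gt : 0.36 < pD := by
  rw [pD_eq]
  have h1 := bb_gt
  have h2 := dl_zero_le
  have h3 := mul_pos (Real.exp_pos (-1)) (dl_pos 0)
  have h4 : 0 < bb * dl 0 := h3
  nlinarith

theorem solve_one (n S r : ℕ) : pp * xx n S r + pq * yy n S r = uu S r := by
  have h := pD_gt
  have h' : pD ≠ 0 := by linarith
  unfold xx yy
  field_simp
  rw [show pD = pp * pB - pq * pA from rfl]
  ring

theorem solve_two (n S r : ℕ) : pA * xx n S r + pB * yy n S r = vv n S r := by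
  have h := pD_gt
  have h' : pD ≠ 0 := by linarith
  unfold xx yy
  field_simp
  rw [show pD = pp * pB - pq * pA from rfl]
  ring

/-- telescoping -/
theorem sum_pc (φ : ℝ → ℝ) {S : ℕ} (hS : 1 ≤ S) (a : ℝ) :
    ∑ r ∈ range (S + 1), pc φ (lo S r) (hi r) a = φ (min a (dl 0)) - φ (min a 0) := by
  have h1 : ∀ T : ℕ, 1 ≤ T → ∑ r ∈ range T, (φ (min a (dl (r - 1))) - φ (min a (dl r))) =
      φ (min a (dl 0)) - φ (min a (dl (T - 1))) := by
    intro T hT
    induction T, hT using Nat.le_induction with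
    | base => simp
    | succ T hT ih =>
      rw [sum_range_succ, ih]
      simp
  rw [sum_range_succ]
  have h2 : ∀ r ∈ range S, pc φ (lo S r) (hi r) a =
      φ (min a (dl (r - 1))) - φ (min a (dl r)) := by
    intro r hr
    unfold pc lo hi
    rw [if_pos (mem_range.1 hr)]
  rw [sum_congr rfl h2, h1 S hS]
  unfold pc lo hi
  rw [if_neg (lt_irrefl S)]
  ring

theorem sum_diff (φ : ℝ → ℝ) {S : ℕ} (hS : 1 ≤ S) :
    ∑ r ∈ range (S + 1), (φ (hi r) - φ (lo S r)) = φ (dl 0) - φ 0 := by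
  have h1 := sum_pc φ hS 1
  have hd : dl 0 ≤ 1 := by linarith [dl_zero_le]
  rw [min_eq_right hd, min_eq_right zero_le_one] at h1
  rw [← h1]
  refine sum_congr rfl fun r _ => ?_
  rw [pc_of_ge φ (lo_le_hi S r) ((hi_le r).trans hd)]

theorem sum_th (S : ℕ) : ∑ r ∈ range (S + 1), th S r = 1 := by
  have h1 : ∀ T : ℕ, ∑ r ∈ range T, ((1 : ℝ) / 2) ^ (r + 1) = 1 - (1 / 2) ^ T := by
    intro T
    induction T with
    | zero => simp
    | succ T ih =>
      rw [sum_range_succ, ih]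
      ring
  rw [sum_range_succ]
  have h2 : ∀ r ∈ range S, th S r = (1 / 2) ^ (r + 1) := by
    intro r hr
    unfold th
    rw [if_pos (mem_range.1 hr)]
  rw [sum_congr rfl h2, h1]
  unfold th
  rw [if_neg (lt_irrefl S)]
  ring

theorem sum_th_ee (n : ℕ) {S : ℕ} (hS : 1 ≤ S) : ∑ r ∈ range (S + 1), th S r * ee n S r = 0 := by
  rw [range_eq_Ico, sum_eq_sum_Ico_succ_bot (by omega)]
  have h1 : ∑ r ∈ Ico (0 + 1) (S + 1), th S r * ee n S r = EE n S := by
    unfold EE
    refine sum_congr rfl fun r hr => ?_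
    have := (mem_Ico.1 hr).1
    unfold ee
    rw [if_neg (by omega)]
  rw [h1]
  unfold th ee
  rw [if_pos (by omega), if_pos rfl]
  ring

theorem sum_th_uu {S : ℕ} (hS : 1 ≤ S) : ∑ r ∈ range (S + 1), th S r * uu S r = 0 := by
  have h1 : ∀ r ∈ range (S + 1), th S r * uu S r = dl 0 * th S r - (id (hi r) - id (lo S r)) := by
    intro r _
    unfold uu
    have := (th_pos S r).ne'
    simp only [id]
    field_simp
  rw [sum_congr rfl h1, sum_sub_distrib, ← mul_sum, sum_th, sum_diff id hS]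
  simp

theorem sum_th_vv (n : ℕ) {S : ℕ} (hS : 1 ≤ S) : ∑ r ∈ range (S + 1), th S r * vv n S r = 0 := by
  have h1 : ∀ r ∈ range (S + 1), th S r * vv n S r =
      L (dl 0) * th S r - (L (hi r) - L (lo S r)) - (1 / n) * (th S r * ee n S r) := by
    intro r _
    unfold vv
    have := (th_pos S r).ne'
    field_simp
    ring
  rw [sum_congr rfl h1, sum_sub_distrib, sum_sub_distrib, ← mul_sum, ← mul_sum, sum_th,
    sum_diff L hS, sum_th_ee n hS, L_zero]
  ring

theorem sum_th_xx (n : ℕ) {S : ℕ} (hS : 1 ≤ S) : ∑ r ∈ range (S + 1), th S r * xx n S r = 0 := by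
  have h1 : ∀ r ∈ range (S + 1), th S r * xx n S r =
      (pB / pD) * (th S r * uu S r) - (pq / pD) * (th S r * vv n S r) := by
    intro r _
    unfold xx
    ring
  rw [sum_congr rfl h1, sum_sub_distrib, ← mul_sum, ← mul_sum, sum_th_uu hS, sum_th_vv n hS]
  ring

theorem sum_th_yy (n : ℕ) {S : ℕ} (hS : 1 ≤ S) : ∑ r ∈ range (S + 1), th S r * yy n S r = 0 := by
  have h1 : ∀ r ∈ range (S + 1), th S r * yy n S r =
      (pp / pD) * (th S r * vv n S r) - (pA / pD) * (th S r * uu S r) := by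
    intro r _
    unfold yy
    ring
  rw [sum_congr rfl h1, sum_sub_distrib, ← mul_sum, ← mul_sum, sum_th_uu hS, sum_th_vv n hS]
  ring

/-- the mixture is the identity -/
theorem mix (n : ℕ) {S : ℕ} (hS : 1 ≤ S) {a : ℝ} (ha : 0 ≤ a) (ha1 : a ≤ 1) :
    ∑ r ∈ range (S + 1), th S r * FF id n S r a = a := by
  have h1 : ∀ r ∈ range (S + 1), th S r * FF id n S r a =
      pc id (lo S r) (hi r) a + (pc id (dl 0) bb a + pc id bb 1 a) * th S r +
        pc id (dl 0) bb a * (th S r * xx n S r) + pc id bb 1 a * (th S r * yy n S r) := by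
    intro r _
    unfold FF
    have := (th_pos S r).ne'
    field_simp
    ring
  rw [sum_congr rfl h1, sum_add_distrib, sum_add_distrib, sum_add_distrib, ← mul_sum, ← mul_sum,
    ← mul_sum, sum_pc id hS, sum_th, sum_th_xx n hS, sum_th_yy n hS]
  unfold pc
  simp only [id]
  rw [min_eq_left ha1, min_eq_right ha]
  ring

theorem FF_one (n S r : ℕ) : FF id n S r 1 = 1 := by
  have hd : dl 0 ≤ 1 := by linarith [dl_zero_le]
  have hb : bb ≤ 1 := by linarith [bb_lt]
  unfold FF
  rw [pc_of_ge id (lo_le_hi S r) ((hi_le r).trans hd), pc_of_ge id dl_le_bb hb,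
    pc_of_ge id hb le_rfl]
  have h1 := solve_one n S r
  have h2 : 1 / th S r * (hi r - lo S r) = dl 0 - uu S r := by
    unfold uu
    ring
  simp only [id]
  rw [h2]
  unfold pp pq at h1
  linarith

theorem GG_one (n S r : ℕ) : FF L n S r 1 = -1 - ee n S r / n := by
  have hd : dl 0 ≤ 1 := by linarith [dl_zero_le]
  have hb : bb ≤ 1 := by linarith [bb_lt]
  unfold FF
  rw [pc_of_ge L (lo_le_hi S r) ((hi_le r).trans hd), pc_of_ge L dl_le_bb hb,
    pc_of_ge L hb le_rfl]
  have h1 := solve_two n S r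
  have h2 : 1 / th S r * (L (hi r) - L (lo S r)) = L (dl 0) - ee n S r / n - vv n S r := by
    unfold vv
    ring
  rw [h2]
  unfold pA pB at h1
  rw [L_one] at *
  linarith

end Pool.Agent.Helper21.Cn
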