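import Pool.Agent.Helper21.Cn.Fam
import Pool.Agent.Helper21.Cn.Par

/-!
# `1 - s_n ≤ C n exp (-n)`
-/

set_option autoImplicit false

namespace Pool.Agent.Helper21.Cn

open Finset Pool.Agent.Helper43.Copula Pool.Agent.Helper3.Cop

structure Good (n S : ℕ) : Prop where
  hS : 12 ≤ S
  h1 : 8 ^ S ≤ n
  h2 : n < 8 ^ (S + 1)

variable {n S : ℕ}

theorem Good.hn (h : Good n S) : 1 ≤ n := le_trans (Nat.one_le_pow _ _ (by norm_num)) h.h1

theorem Good.log_le (h : Good n S) : Real.log n ≤ 3 * (S + 1) := by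
  have h0 : (0 : ℝ) < n := by exact_mod_cast h.hn
  have h1 : (n : ℝ) ≤ 8 ^ (S + 1) := by exact_mod_cast h.h2.le
  have h2 := Real.log_le_log h0 h1
  rw [Real.log_pow] at h2
  have h3 : Real.log 8 = 3 * Real.log 2 := by
    rw [show (8 : ℝ) = 2 ^ 3 by norm_num, Real.log_pow]
    norm_num
  have h4 := Real.log_two_lt_d9
  rw [h3] at h2
  push_cast at h2
  have h5 : (0 : ℝ) ≤ (S : ℝ) + 1 := by positivity
  nlinarith

theorem Good.log_nonneg (h : Good n S) : 0 ≤ Real.log n :=
  Real.log_nonneg (by exact_mod_cast h.hn)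

theorem half_pow_mul (S : ℕ) : ((1 : ℝ) / 2) ^ S * (S + 1) ≤ 1 := by
  have h1 : (S : ℝ) + 1 ≤ 2 ^ S := by exact_mod_cast Nat.lt_two_pow_self (n := S)
  rw [one_div, inv_pow, inv_mul_le_iff₀ (by positivity)]
  linarith

theorem sum_geo (T : ℕ) : ∑ r ∈ Ico 1 (T + 1), ((1 : ℝ) / 2) ^ (r + 1) * (10 + 3 * (r : ℝ)) =
    8 - (1 / 2) ^ (T + 1) * (16 + 3 * (T : ℝ)) := by
  induction T with
  | zero => norm_num
  | succ T ih =>
    rw [sum_Ico_succ_top (by omega), ih]
    push_cast
    ring

theorem Good.EE_le (h : Good n S) : EE n S ≤ 13 := by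
  obtain ⟨T, rfl⟩ : ∃ T, S = T + 1 := ⟨S - 1, by have := h.hS; omega⟩
  unfold EE
  rw [sum_Ico_succ_top (by omega)]
  have h1 : ∀ r ∈ Ico 1 (T + 1), th (T + 1) r * ep n (T + 1) r =
      ((1 : ℝ) / 2) ^ (r + 1) * (10 + 3 * (r : ℝ)) := by
    intro r hr
    have := (mem_Ico.1 hr).2
    unfold th ep
    rw [if_pos this, if_pos this]
  rw [sum_congr rfl h1, sum_geo]
  have h2 : th (T + 1) (T + 1) * ep n (T + 1) (T + 1) =
      (1 / 2) ^ (T + 1) * (1 + Real.log n + 2 * ((T + 1 : ℕ) : ℝ)) := by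
    unfold th ep
    rw [if_neg (lt_irrefl _), if_neg (lt_irrefl _)]
  rw [h2]
  have h3 := h.log_le
  have h4 := half_pow_mul (T + 1)
  have h5 : (0 : ℝ) < (1 / 2) ^ (T + 1) := by positivity
  have h6 : (0 : ℝ) ≤ (1 / 2) ^ (T + 1) * (16 + 3 * (T : ℝ)) := by positivity
  push_cast at *
  have h7 : (1 / 2 : ℝ) ^ (T + 1) * (1 + Real.log n + 2 * ((T : ℝ) + 1)) ≤
      (1 / 2 : ℝ) ^ (T + 1) * (5 * ((T : ℝ) + 1 + 1)) := by
    apply mul_le_mul_of_nonneg_left _ h5.le
    linarith
  nlinarith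

theorem Good.EE_nonneg (h : Good n S) : 0 ≤ EE n S := by
  unfold EE
  refine sum_nonneg fun r _ => mul_nonneg (th_pos S r).le ?_
  have := h.log_nonneg
  unfold ep
  split_ifs <;> positivity

theorem Good.abs_ee (h : Good n S) (r : ℕ) : |ee n S r| ≤ 26 + 5 * S := by
  have h1 := h.EE_le
  have h2 := h.EE_nonneg
  have h3 := h.log_le
  have h4 := h.log_nonneg
  have h5 : (0 : ℝ) ≤ S := by positivity
  unfold ee
  split_ifs with h6
  · rw [abs_le]
    constructor <;> linarith
  · unfold ep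
    split_ifs with h7
    · have h8 : (r : ℝ) ≤ S := by exact_mod_cast h7.le
      have h9 : (0 : ℝ) ≤ r := by positivity
      rw [abs_le]
      constructor <;> linarith
    · rw [abs_le]
      constructor <;> linarith

theorem Good.ee_div (h : Good n S) (r : ℕ) : |ee n S r / n| ≤ 1 / 20 := by
  have h0 : (0 : ℝ) < n := by exact_mod_cast h.hn
  rw [abs_div, abs_of_pos h0, div_le_iff₀ h0]
  have h1 := h.abs_ee r
  have h2 : ((8 : ℝ) ^ S) ≤ n := by exact_mod_cast h.h1
  have h3 : (8 : ℝ) ^ S = 2 ^ S * (2 ^ S * 2 ^ S) := by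
    rw [← mul_pow, ← mul_pow]; norm_num
  have h4 : (S : ℝ) + 1 ≤ 2 ^ S := by exact_mod_cast Nat.lt_two_pow_self (n := S)
  have h5 : (4096 : ℝ) ≤ 2 ^ S := by
    calc (4096 : ℝ) = 2 ^ 12 := by norm_num
      _ ≤ 2 ^ S := pow_le_pow_right₀ (by norm_num) h.hS
  have h6 : (0 : ℝ) ≤ S := by positivity
  have h7 : (4096 : ℝ) * 4096 ≤ 2 ^ S * 2 ^ S := mul_le_mul h5 h5 (by norm_num) (by positivity)
  have h8 : ((S : ℝ) + 1) * (4096 * 4096) ≤ 2 ^ S * (2 ^ S * 2 ^ S) :=
    mul_le_mul h4 h7 (by norm_num) (by positivity)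
  rw [← h3] at h8
  linarith

theorem inv_th_le (S r : ℕ) (hr : r ≤ S) : 1 / th S r ≤ Real.exp (r + 1) := by
  have h2 : (2 : ℝ) ≤ Real.exp 1 := by
    have := Real.exp_one_gt_d9
    linarith
  have h1 : 1 / th S r ≤ 2 ^ (r + 1) := by
    unfold th
    split_ifs with h
    · rw [one_div_pow, one_div_one_div]
    · have : r = S := by omega
      rw [this, one_div_pow, one_div_one_div]
      exact pow_le_pow_right₀ (by norm_num) (by omega)
  calc 1 / th S r ≤ 2 ^ (r + 1) := h1
    _ ≤ Real.exp 1 ^ (r + 1) := pow_le_pow_left₀ (by norm_num) h2 _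
    _ = Real.exp (r + 1) := by
        rw [← Real.exp_nat_mul]
        congr 1
        push_cast
        ring

theorem hi_div_le (S r : ℕ) (hr : r ≤ S) (hr1 : 1 ≤ r) :
    hi r / th S r ≤ Real.exp (-7) * Real.exp (-(r : ℝ)) := by
  have h1 := inv_th_le S r hr
  have h2 : hi r = Real.exp (-(8 + 2 * (r : ℝ))) := by
    unfold hi dl
    congr 1
    rw [Nat.cast_sub hr1]
    push_cast
    ring
  rw [div_eq_mul_one_div]
  calc hi r * (1 / th S r) ≤ hi r * Real.exp (r + 1) :=
        mul_le_mul_of_nonneg_left h1 (dl_pos _).le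
    _ = Real.exp (-7) * Real.exp (-(r : ℝ)) := by
        rw [h2, ← Real.exp_add, ← Real.exp_add]
        congr 1
        ring

theorem L_nonpos {x : ℝ} (h0 : 0 ≤ x) (h1 : x ≤ 1) : L x ≤ 0 := by
  unfold L
  have := Real.log_nonpos h0 h1
  nlinarith

theorem L_lo_hi (S r : ℕ) : L (hi r) ≤ L (lo S r) := by
  have hd : dl 0 ≤ 1 := by linarith [dl_zero_le]
  have hh : hi r ≤ 1 := (hi_le r).trans hd
  rcases (lo_nonneg S r).eq_or_lt with h0 | h0
  · rw [← h0, L_zero]
    exact L_nonpos (dl_pos _).le hh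
  · rcases (lo_le_hi S r).eq_or_lt with h1 | h1
    · rw [h1]
    · have hy : 0 < hi r := dl_pos _
      have h3 : L (hi r) - L (lo S r) ≤ Real.log (hi r) * (hi r - lo S r) := by
        unfold L
        have h4 : Real.log (hi r) - Real.log (lo S r) ≤ hi r / lo S r - 1 := by
          rw [← Real.log_div hy.ne' h0.ne']
          exact Real.log_le_sub_one_of_pos (div_pos hy h0)
        have h5 : lo S r * (hi r / lo S r - 1) = hi r - lo S r := by field_simp
        have h6 := mul_le_mul_of_nonneg_left h4 h0.le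
        rw [h5] at h6
        nlinarith
      have h4 := Real.log_nonpos hy.le hh
      have h5 : Real.log (hi r) * (hi r - lo S r) ≤ 0 :=
        mul_nonpos_of_nonpos_of_nonneg h4 (sub_nonneg.2 h1.le)
      linarith

theorem uu_bound (hS : 1 ≤ S) (r : ℕ) (hr : r ≤ S) : |uu S r| ≤ 1 / 1000 := by
  have h0 := dl_zero_le
  have h00 := dl_pos 0
  rcases Nat.eq_zero_or_pos r with rfl | hr1
  · have h1 : hi 0 - lo S 0 = 0 := by
      unfold hi lo
      rw [if_pos (by omega)]
      simp
    unfold uu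
    rw [h1, zero_div, sub_zero, abs_of_pos h00]
    linarith
  · have h1 := hi_div_le S r hr hr1
    have h2 : Real.exp (-(r : ℝ)) ≤ 1 := Real.exp_le_one_iff.2 (by simp)
    have h3 := exp_seven
    have h4 : 0 < Real.exp (-7) := Real.exp_pos _
    have h5 : hi r / th S r ≤ 1 / 1000 := by nlinarith
    have h6 : (hi r - lo S r) / th S r ≤ hi r / th S r :=
      div_le_div_of_nonneg_right (by linarith [lo_nonneg S r]) (th_pos S r).le
    have h7 : 0 ≤ (hi r - lo S r) / th S r :=
      div_nonneg (sub_nonneg.2 (lo_le_hi S r)) (th_pos S r).le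
    unfold uu
    rw [abs_le]
    constructor <;> linarith

theorem sig_bound (hS : 1 ≤ S) (r : ℕ) (hr : r ≤ S) :
    0 ≤ -((L (hi r) - L (lo S r)) / th S r) ∧ -((L (hi r) - L (lo S r)) / th S r) ≤ 9 / 1000 := by
  have hd : dl 0 ≤ 1 := by linarith [dl_zero_le]
  constructor
  · rw [neg_nonneg]
    exact div_nonpos_of_nonpos_of_nonneg (sub_nonpos.2 (L_lo_hi S r)) (th_pos S r).le
  · rcases Nat.eq_zero_or_pos r with rfl | hr1
    · have h1 : hi 0 = lo S 0 := by
        unfold hi lo
        rw [if_pos (by omega)]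
      rw [h1]
      norm_num
    · have h1 := hi_div_le S r hr hr1
      have h2 : L (hi r) = -(9 + 2 * (r : ℝ)) * hi r := by
        unfold hi
        rw [L_dl, Nat.cast_sub hr1]
        push_cast
        ring
      have h3 : L (lo S r) ≤ 0 := L_nonpos (lo_nonneg S r) ((lo_le_hi S r).trans ((hi_le r).trans hd))
      have h4 : -((L (hi r) - L (lo S r)) / th S r) ≤ (9 + 2 * (r : ℝ)) * (hi r / th S r) := by
        have h5 : (9 + 2 * (r : ℝ)) * (hi r / th S r) = -(L (hi r)) / th S r := by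
          rw [h2]
          ring
        rw [h5, ← neg_div]
        apply div_le_div_of_nonneg_right _ (th_pos S r).le
        linarith
      have h5 : (r : ℝ) + 1 ≤ Real.exp r := Real.add_one_le_exp _
      have h6 : Real.exp (-(r : ℝ)) * Real.exp r = 1 := by
        rw [← Real.exp_add]
        simp
      have h7 : (9 + 2 * (r : ℝ)) * (Real.exp (-7) * Real.exp (-(r : ℝ))) ≤ 9 * Real.exp (-7) := by
        have h8 : (9 + 2 * (r : ℝ)) * Real.exp (-(r : ℝ)) ≤ 9 := by
          have h9 : (9 + 2 * (r : ℝ)) ≤ 9 * Real.exp r := by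
            have : (0 : ℝ) ≤ r := by positivity
            linarith
          calc (9 + 2 * (r : ℝ)) * Real.exp (-(r : ℝ)) ≤ 9 * Real.exp r * Real.exp (-(r : ℝ)) :=
                mul_le_mul_of_nonneg_right h9 (Real.exp_pos _).le
            _ = 9 := by rw [mul_assoc, mul_comm (Real.exp (r : ℝ)), h6, mul_one]
        calc _ = ((9 + 2 * (r : ℝ)) * Real.exp (-(r : ℝ))) * Real.exp (-7) := by ring
          _ ≤ 9 * Real.exp (-7) := mul_le_mul_of_nonneg_right h8 (Real.exp_pos _).le
      have h8 := exp_seven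
      have h9 : (9 + 2 * (r : ℝ)) * (hi r / th S r) ≤
          (9 + 2 * (r : ℝ)) * (Real.exp (-7) * Real.exp (-(r : ℝ))) :=
        mul_le_mul_of_nonneg_left h1 (by positivity)
      linarith

theorem Good.vv_bound (h : Good n S) (r : ℕ) (hr : r ≤ S) : |vv n S r| ≤ 1 / 10 := by
  have h1 := sig_bound (S := S) (by have := h.hS; omega) r hr
  have h2 := abs_le.1 (h.ee_div r)
  have h3 := L_dl_zero
  have h4 := dl_zero_le
  have h5 := dl_pos 0
  unfold vv
  rw [abs_le]
  constructor <;> linarith [h1.1, h1.2, h2.1, h2.2]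

theorem Good.xx_bound (h : Good n S) (r : ℕ) (hr : r ≤ S) :
    0 ≤ 1 + xx n S r ∧ 0 ≤ 1 + yy n S r := by
  have h1 := abs_le.1 (uu_bound (S := S) (by have := h.hS; omega) r hr)
  have h2 := abs_le.1 (h.vv_bound r hr)
  have hb1 := bb_gt
  have hb2 := bb_lt
  have hd1 := dl_zero_le
  have hd2 := dl_pos 0
  have hD := pD_gt
  have hD0 : 0 < pD := by linarith
  have hA := pA_eq
  have hB := pB_eq
  have hp : pp = bb - dl 0 := rfl
  have hq : pq = 1 - bb := rfl
  constructor
  · have h3 : -pD ≤ uu S r * pB - pq * vv n S r := by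
      have e1 : |uu S r * pB| ≤ 1 / 1000 * 1 := by
        rw [abs_mul]
        refine mul_le_mul (abs_le.2 h1) ?_ (abs_nonneg _) (by norm_num)
        rw [hB, abs_le]
        constructor <;> linarith
      have e2 : |pq * vv n S r| ≤ 1 * (1 / 10) := by
        rw [abs_mul]
        refine mul_le_mul ?_ (abs_le.2 h2) (abs_nonneg _) (by norm_num)
        rw [hq, abs_le]
        constructor <;> linarith
      have e3 := abs_le.1 e1
      have e4 := abs_le.1 e2
      linarith [e3.1, e4.2]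
    unfold xx
    have h4 : -1 ≤ (uu S r * pB - pq * vv n S r) / pD := by
      rw [le_div_iff₀ hD0]
      linarith
    linarith
  · have h3 : -pD ≤ pp * vv n S r - pA * uu S r := by
      have e1 : |pA * uu S r| ≤ 1 * (1 / 1000) := by
        rw [abs_mul]
        refine mul_le_mul ?_ (abs_le.2 h1) (abs_nonneg _) (by norm_num)
        rw [hA, abs_le]
        constructor <;> linarith
      have e2 : |pp * vv n S r| ≤ 1 * (1 / 10) := by
        rw [abs_mul]
        refine mul_le_mul ?_ (abs_le.2 h2) (abs_nonneg _) (by norm_num)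
        rw [hp, abs_le]
        constructor <;> linarith
      have e3 := abs_le.1 e1
      have e4 := abs_le.1 e2
      linarith [e3.2, e4.1]
    unfold yy
    have h4 : -1 ≤ (pp * vv n S r - pA * uu S r) / pD := by
      rw [le_div_iff₀ hD0]
      linarith
    linarith

theorem Good.pair (h : Good n S) (r : ℕ) (hr : r ≤ S) : Pair (FF id n S r) (FF L n S r) where
  cont := by
    unfold FF
    have h1 := continuous_pc (lo S r) (hi r)
    have h2 := continuous_pc (dl 0) bb
    have h3 := continuous_pc bb 1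
    fun_prop
  mono := by
    intro s t hst
    have hb : bb ≤ 1 := by linarith [bb_lt]
    obtain ⟨hx, hy⟩ := h.xx_bound r hr
    unfold FF
    have h1 := mul_le_mul_of_nonneg_left (pc_mono (lo_le_hi S r) hst) (one_div_pos.2 (th_pos S r)).le
    have h2 := mul_le_mul_of_nonneg_left (pc_mono dl_le_bb hst) hx
    have h3 := mul_le_mul_of_nonneg_left (pc_mono hb hst) hy
    linarith
  zero := by
    have hb : bb ≤ 1 := by linarith [bb_lt]
    have hb0 : 0 ≤ bb := (Real.exp_pos _).le
    unfold FF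
    rw [pc_zero id (lo_nonneg S r) (lo_le_hi S r), pc_zero id (dl_pos 0).le dl_le_bb,
      pc_zero id hb0 hb]
    ring
  one := FF_one n S r
  key := by
    intro s t hs hst
    have hb : bb ≤ 1 := by linarith [bb_lt]
    obtain ⟨hx, hy⟩ := h.xx_bound r hr
    unfold FF
    have h1 := mul_le_mul_of_nonneg_left (pc_key (lo_le_hi S r) hs hst)
      (one_div_pos.2 (th_pos S r)).le
    have h2 := mul_le_mul_of_nonneg_left (pc_key dl_le_bb hs hst) hx
    have h3 := mul_le_mul_of_nonneg_left (pc_key hb hs hst) hy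
    nlinarith

noncomputable def KK (n S r : ℕ) : ℝ := if r < S then 10 + 2 * (r : ℝ) else 1 + Real.log n + S

theorem FF_of_le (φ : ℝ → ℝ) (n S r : ℕ) {a : ℝ} (ha : a ≤ lo S r) : FF φ n S r a = 0 := by
  have hb : bb ≤ 1 := by linarith [bb_lt]
  have h1 : lo S r ≤ dl 0 := (lo_le_hi S r).trans (hi_le r)
  unfold FF
  rw [pc_of_le φ (lo_le_hi S r) ha, pc_of_le φ dl_le_bb (ha.trans h1),
    pc_of_le φ hb ((ha.trans h1).trans dl_le_bb)]
  ring

theorem Good.hK (h : Good n S) (r : ℕ) (hr : r ≤ S) (a : ℝ) (ha0 : 0 ≤ a) (_ha1 : a ≤ 1)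
    (ha : (n : ℝ) * FF id n S r a = 1) : -(n * FF L n S r a) ≤ KK n S r := by
  have hn0 : (0 : ℝ) < n := by exact_mod_cast h.hn
  have hb : bb ≤ 1 := by linarith [bb_lt]
  have hF : FF id n S r a = 1 / n := by
    field_simp
    linarith
  unfold KK
  split_ifs with hrS
  · have hlo : lo S r = dl r := by
      unfold lo
      rw [if_pos hrS]
    have h1 : dl r ≤ a := by
      by_contra hc
      push Not at hc
      rw [FF_of_le id n S r (by rw [hlo]; exact hc.le)] at ha
      simp at ha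
    have h2 := (h.pair r hr).key (dl r) a (dl_pos r) h1
    rw [FF_of_le id n S r hlo.ge, FF_of_le L n S r hlo.ge, sub_zero, sub_zero, hF] at h2
    have h3 : Real.log (dl r) = -(10 + 2 * (r : ℝ)) := by
      unfold dl
      rw [Real.log_exp]
    rw [h3] at h2
    have h4 := mul_le_mul_of_nonneg_left h2 hn0.le
    have h5 : (n : ℝ) * (-(10 + 2 * (r : ℝ)) * (1 / n)) = -(10 + 2 * (r : ℝ)) := by field_simp
    rw [h5] at h4
    linarith
  · have hrS' : r = S := by omega
    subst hrS'
    have hlo : lo r r = 0 := by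
      unfold lo
      rw [if_neg (lt_irrefl r)]
    have hth : th r r = (1 / 2) ^ r := by
      unfold th
      rw [if_neg (lt_irrefl r)]
    have hthp := th_pos r r
    have hhi : hi r = Real.exp (-(8 + 2 * (r : ℝ))) := by
      unfold hi dl
      congr 1
      rw [Nat.cast_sub (by have := h.hS; omega)]
      push_cast
      ring
    have hsmall : ∀ φ : ℝ → ℝ, ∀ x : ℝ, 0 ≤ x → x ≤ hi r →
        FF φ n r r x = 1 / th r r * (φ x - φ 0) := by
      intro φ x hx0 hx
      unfold FF
      rw [pc_of_le φ dl_le_bb (hx.trans (hi_le r)), pc_of_le φ hb ((hx.trans (hi_le r)).trans dl_le_bb)]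
      unfold pc
      rw [hlo, min_eq_left hx, min_eq_right hx0]
      ring
    -- the first cell ends inside the small piece
    have hkey : th r r < n * hi r := by
      have h2 : ((8 : ℝ) ^ r) ≤ n := by exact_mod_cast h.h1
      have h5 : (4096 : ℝ) ≤ 2 ^ r := by
        calc (4096 : ℝ) = 2 ^ 12 := by norm_num
          _ ≤ 2 ^ r := pow_le_pow_right₀ (by norm_num) h.hS
      have he := Real.exp_one_lt_d9
      have he0 := Real.exp_pos 1
      have h6 : Real.exp 8 < 4096 := by
        have : Real.exp 8 = Real.exp 1 ^ 8 := by rw [← Real.exp_nat_mul]; norm_num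
        rw [this]
        calc Real.exp 1 ^ 8 ≤ 2.72 ^ 8 := pow_le_pow_left₀ he0.le (by linarith) 8
          _ < 4096 := by norm_num
      have h7 : Real.exp (2 * (r : ℝ)) ≤ 8 ^ r := by
        have h8 : Real.exp (2 * (r : ℝ)) = (Real.exp 1 ^ 2) ^ r := by
          rw [← Real.exp_nat_mul, ← Real.exp_nat_mul]
          congr 1
          push_cast
          ring
        rw [h8]
        apply pow_le_pow_left₀ (by positivity)
        calc Real.exp 1 ^ 2 ≤ 2.72 ^ 2 := pow_le_pow_left₀ he0.le (by linarith) 2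
          _ ≤ 8 := by norm_num
      have h9 : Real.exp (8 + 2 * (r : ℝ)) < 2 ^ r * n := by
        rw [Real.exp_add]
        calc Real.exp 8 * Real.exp (2 * (r : ℝ)) < 4096 * Real.exp (2 * (r : ℝ)) :=
              mul_lt_mul_of_pos_right h6 (Real.exp_pos _)
          _ ≤ 2 ^ r * n := mul_le_mul h5 (h7.trans h2) (Real.exp_pos _).le (by positivity)
      rw [hth, hhi, Real.exp_neg, one_div_pow, ← div_eq_mul_inv, lt_div_iff₀ (Real.exp_pos _),
        one_div, inv_mul_lt_iff₀ (by positivity)]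
      exact h9
    have hah : a ≤ hi r := by
      by_contra hc
      push Not at hc
      have h1 := (h.pair r hr).mono hc.le
      rw [hF, hsmall id (hi r) (dl_pos _).le le_rfl] at h1
      simp only [id, sub_zero] at h1
      rw [one_div_mul_eq_div, div_le_div_iff₀ hthp hn0] at h1
      linarith
    have h1 := hsmall id a ha0 hah
    rw [hF] at h1
    simp only [id, sub_zero] at h1
    have h2 : a = th r r / n := by
      field_simp at h1 ⊢
      linarith
    have h3 := hsmall L a ha0 hah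
    rw [h3, L_zero, sub_zero]
    have h4 : Real.log a = -(r * Real.log 2) - Real.log n := by
      rw [h2, Real.log_div hthp.ne' hn0.ne', hth, Real.log_pow]
      rw [one_div, Real.log_inv]
      ring
    have h5 : (n : ℝ) * (1 / th r r * L a) = Real.log a - 1 := by
      unfold L
      have h6 : (n : ℝ) * (1 / th r r) * a = 1 := by
        rw [h2]
        field_simp
      calc (n : ℝ) * (1 / th r r * (a * Real.log a - a))
          = ((n : ℝ) * (1 / th r r) * a) * (Real.log a - 1) := by ring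
        _ = _ := by rw [h6, one_mul]
    rw [h5, h4]
    have h7 := Real.log_two_lt_d9
    have h8 : (0 : ℝ) ≤ r := by positivity
    nlinarith

theorem Good.data (h : Good n S) : Data n (range (S + 1)) (th S) (FF id n S) where
  th_nonneg := fun r _ => (th_pos S r).le
  zero := fun r hr => (h.pair r (by have := mem_range.1 hr; omega)).zero
  one := fun r hr => (h.pair r (by have := mem_range.1 hr; omega)).one
  mono := fun r hr _ _ _ hab _ => (h.pair r (by have := mem_range.1 hr; omega)).mono hab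
  mix := fun _ ha ha1 => mix n (by have := h.hS; omega) ha ha1

theorem exp_neg_le_half (r : ℕ) : Real.exp (-(r : ℝ)) ≤ (1 / 2) ^ r := by
  have h2 : (2 : ℝ) ≤ Real.exp 1 := by
    have := Real.exp_one_gt_d9
    linarith
  have h1 : Real.exp (-(r : ℝ)) = (1 / Real.exp 1) ^ r := by
    rw [one_div, ← Real.exp_neg, ← Real.exp_nat_mul]
    congr 1
    ring
  rw [h1]
  exact pow_le_pow_left₀ (by positivity) (one_div_le_one_div_of_le (by norm_num) h2) r

theorem Good.exponent (h : Good n S) (r : ℕ) (hr : r ≤ S) :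
    Real.exp (n * FF L n S r 1 + KK n S r) ≤ Real.exp (-(n : ℝ)) * (Real.exp 36 * (1 / 2) ^ r) := by
  have hn0 : (0 : ℝ) < n := by exact_mod_cast h.hn
  have hE := h.EE_le
  have hS := h.hS
  have h1 : (n : ℝ) * FF L n S r 1 = -n - ee n S r := by
    rw [GG_one]
    field_simp
  rw [h1]
  rcases Nat.eq_zero_or_pos r with rfl | hr1
  · have h2 : ee n S 0 = -2 * EE n S := by
      unfold ee
      rw [if_pos rfl]
    have h3 : KK n S 0 = 10 := by
      unfold KK
      rw [if_pos (by omega)]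
      simp
    rw [h2, h3, pow_zero, mul_one, ← Real.exp_add]
    apply Real.exp_le_exp.2
    linarith
  · have h2 : KK n S r - ee n S r ≤ -(r : ℝ) := by
      unfold KK ee
      rw [if_neg (show ¬ r = 0 by omega)]
      unfold ep
      split_ifs with h3
      · linarith
      · have : (r : ℝ) ≤ S := by exact_mod_cast hr
        linarith
    have h3 := exp_neg_le_half r
    have h4 : (1 : ℝ) ≤ Real.exp 36 := Real.one_le_exp (by norm_num)
    calc Real.exp (-(n : ℝ) - ee n S r + KK n S r) ≤ Real.exp (-(n : ℝ) + -(r : ℝ)) := by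
          apply Real.exp_le_exp.2
          linarith
      _ = Real.exp (-(n : ℝ)) * Real.exp (-(r : ℝ)) := Real.exp_add _ _
      _ ≤ Real.exp (-(n : ℝ)) * (Real.exp 36 * (1 / 2) ^ r) := by
          apply mul_le_mul_of_nonneg_left _ (Real.exp_pos _).le
          calc Real.exp (-(r : ℝ)) ≤ (1 / 2) ^ r := h3
            _ = 1 * (1 / 2) ^ r := (one_mul _).symm
            _ ≤ Real.exp 36 * (1 / 2) ^ r := mul_le_mul_of_nonneg_right h4 (by positivity)

theorem Good.bound (h : Good n S) :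
    1 - (maxAgreement n).toReal ≤ 2 * Real.exp 36 * (n * Real.exp (-(n : ℝ))) := by
  have hn0 : (0 : ℝ) < n := by exact_mod_cast h.hn
  have hex : ∀ r : ℕ, ∃ t : ℕ → ℝ, (∀ c, 0 ≤ t c) ∧ (r ≤ S →
      (∀ c ∈ Icc 1 n, ∀ a : ℝ, t c < a → a ≤ 1 → (c : ℝ) ≤ n * FF id n S r a) ∧
      ∏ c ∈ range n, t (c + 1) ≤ Real.exp (n * FF L n S r 1 + KK n S r)) := by
    intro r
    by_cases hr : r ≤ S
    · obtain ⟨t, h1, h2, h3⟩ := (h.pair r hr).exists_tops h.hn (K := KK n S r)
        (fun a h0 h1 h2 => h.hK r hr a h0 h1 h2)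
      exact ⟨t, h1, fun _ => ⟨h2, h3⟩⟩
    · exact ⟨fun _ => 0, fun _ => le_rfl, fun h => absurd h hr⟩
  choose t ht0 ht using hex
  have h1 := fam_bound h.hn h.data t ht0
    (fun r hr c hc a ha ha1 => (ht r (by have := mem_range.1 hr; omega)).1 c hc a ha ha1)
  refine h1.trans ?_
  have h2 : ∑ r ∈ range (S + 1), ∏ c ∈ range n, t r (c + 1) ≤
      ∑ r ∈ range (S + 1), Real.exp (-(n : ℝ)) * (Real.exp 36 * (1 / 2) ^ r) := by
    refine sum_le_sum fun r hr => ?_
    have hr' : r ≤ S := by have := mem_range.1 hr; omega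
    exact (ht r hr').2.trans (h.exponent r hr')
  have h3 : ∑ r ∈ range (S + 1), Real.exp (-(n : ℝ)) * (Real.exp 36 * (1 / 2) ^ r) ≤
      Real.exp (-(n : ℝ)) * (Real.exp 36 * 2) := by
    rw [← mul_sum, ← mul_sum]
    apply mul_le_mul_of_nonneg_left _ (Real.exp_pos _).le
    apply mul_le_mul_of_nonneg_left _ (Real.exp_pos _).le
    have h4 : ∀ T : ℕ, ∑ r ∈ range T, ((1 : ℝ) / 2) ^ r = 2 - 2 * (1 / 2) ^ T := by
      intro T
      induction T with
      | zero => simp
      | succ T ih =>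
        rw [sum_range_succ, ih]
        ring
    rw [h4]
    have : (0 : ℝ) < (1 / 2) ^ (S + 1) := by positivity
    linarith
  calc (n : ℝ) * ∑ r ∈ range (S + 1), ∏ c ∈ range n, t r (c + 1)
      ≤ n * (Real.exp (-(n : ℝ)) * (Real.exp 36 * 2)) :=
        mul_le_mul_of_nonneg_left (h2.trans h3) hn0.le
    _ = 2 * Real.exp 36 * (n * Real.exp (-(n : ℝ))) := by ring

/-- **the order of `1 - s_n`, upper bound** -/
theorem upper : ∃ C : ℝ, 0 < C ∧ ∀ n : ℕ, 1 ≤ n →
    1 - (maxAgreement n).toReal ≤ C * (n * Real.exp (-(n : ℝ))) := by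
  refine ⟨2 * Real.exp 36 + Real.exp ((8 : ℝ) ^ 12), by positivity, fun n hn => ?_⟩
  have hn0 : (0 : ℝ) < n := by exact_mod_cast hn
  have hpos : (0 : ℝ) < n * Real.exp (-(n : ℝ)) := mul_pos hn0 (Real.exp_pos _)
  rcases lt_or_ge n (8 ^ 12) with h | h
  · have h1 : 1 - (maxAgreement n).toReal ≤ 1 := by
      have : 0 ≤ (maxAgreement n).toReal := ENNReal.toReal_nonneg
      linarith
    have h2 : (1 : ℝ) ≤ Real.exp ((8 : ℝ) ^ 12) * (n * Real.exp (-(n : ℝ))) := by
      have h3 : (n : ℝ) ≤ 8 ^ 12 := by exact_mod_cast h.le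
      have h4 : (1 : ℝ) ≤ n := by exact_mod_cast hn
      have h5 : Real.exp (-(8 : ℝ) ^ 12) ≤ n * Real.exp (-(n : ℝ)) := by
        calc Real.exp (-(8 : ℝ) ^ 12) ≤ Real.exp (-(n : ℝ)) :=
              Real.exp_le_exp.2 (neg_le_neg h3)
          _ = 1 * Real.exp (-(n : ℝ)) := (one_mul _).symm
          _ ≤ n * Real.exp (-(n : ℝ)) := mul_le_mul_of_nonneg_right h4 (Real.exp_pos _).le
      calc (1 : ℝ) = Real.exp ((8 : ℝ) ^ 12) * Real.exp (-(8 : ℝ) ^ 12) := by
            rw [← Real.exp_add, add_neg_cancel, Real.exp_zero]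
        _ ≤ _ := mul_le_mul_of_nonneg_left h5 (Real.exp_pos _).le
    have h3 : 0 ≤ 2 * Real.exp 36 * (n * Real.exp (-(n : ℝ))) := by positivity
    linarith [add_mul (2 * Real.exp 36) (Real.exp ((8 : ℝ) ^ 12)) (n * Real.exp (-(n : ℝ)))]
  · have hg : Good n (Nat.log 8 n) := by
      refine ⟨?_, Nat.pow_log_le_self 8 (by omega), Nat.lt_pow_succ_log_self (by norm_num) n⟩
      exact (Nat.le_log_iff_pow_le (by norm_num) (by omega)).2 h
    have h1 := hg.bound
    have h3 : 0 ≤ Real.exp ((8 : ℝ) ^ 12) * (n * Real.exp (-(n : ℝ))) := by positivity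
    linarith [add_mul (2 * Real.exp 36) (Real.exp ((8 : ℝ) ^ 12)) (n * Real.exp (-(n : ℝ)))]

end Pool.Agent.Helper21.Cn
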