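import Mathlib

/-!
# Piecewise linear distribution functions and their logarithmic integrals
-/

set_option autoImplicit false

namespace Pool.Agent.Helper21.Cn

open Finset

/-- the primitive `x log x - x` of the logarithm -/
noncomputable def L (x : ℝ) : ℝ := x * Real.log x - x

theorem L_zero : L 0 = 0 := by simp [L]

theorem L_ineq {x y : ℝ} (hx : 0 < x) (hxy : x ≤ y) : Real.log x * (y - x) ≤ L y - L x := by
  have hy : 0 < y := hx.trans_le hxy
  unfold L
  have h1 : Real.log x - Real.log y ≤ x / y - 1 := by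
    rw [← Real.log_div hx.ne' hy.ne']
    exact Real.log_le_sub_one_of_pos (div_pos hx hy)
  have h2 : y * (Real.log x - Real.log y) ≤ x - y := by
    have := mul_le_mul_of_nonneg_left h1 hy.le
    have h3 : y * (x / y - 1) = x - y := by field_simp
    rwa [h3] at this
  nlinarith

/-- the part of `φ` between `lo` and `hi` -/
noncomputable def pc (φ : ℝ → ℝ) (lo hi a : ℝ) : ℝ := φ (min a hi) - φ (min a lo)

theorem pc_eq (φ : ℝ → ℝ) {lo hi : ℝ} (h : lo ≤ hi) (a : ℝ) :
    pc φ lo hi a = φ (max lo (min a hi)) - φ lo := by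
  unfold pc
  rcases le_total a lo with h1 | h1
  · rw [min_eq_left (h1.trans h), min_eq_left h1, max_eq_left h1]
    ring
  · rw [min_eq_right h1, max_eq_right (le_min h1 h)]

theorem pc_zero (φ : ℝ → ℝ) {lo hi : ℝ} (h0 : 0 ≤ lo) (h : lo ≤ hi) : pc φ lo hi 0 = 0 := by
  unfold pc
  rw [min_eq_left (h0.trans h), min_eq_left h0]
  ring

theorem pc_of_le (φ : ℝ → ℝ) {lo hi a : ℝ} (h : lo ≤ hi) (ha : a ≤ lo) : pc φ lo hi a = 0 := by
  unfold pc
  rw [min_eq_left (ha.trans h), min_eq_left ha]
  ring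

theorem pc_of_ge (φ : ℝ → ℝ) {lo hi a : ℝ} (h : lo ≤ hi) (ha : hi ≤ a) :
    pc φ lo hi a = φ hi - φ lo := by
  unfold pc
  rw [min_eq_right ha, min_eq_right (h.trans ha)]

theorem pc_mono {lo hi s t : ℝ} (h : lo ≤ hi) (hst : s ≤ t) : pc id lo hi s ≤ pc id lo hi t := by
  rw [pc_eq _ h, pc_eq _ h]
  have : max lo (min s hi) ≤ max lo (min t hi) := max_le_max le_rfl (min_le_min hst le_rfl)
  simpa using this

theorem pc_key {lo hi s t : ℝ} (h : lo ≤ hi) (hs : 0 < s) (hst : s ≤ t) :
    Real.log s * (pc id lo hi t - pc id lo hi s) ≤ pc L lo hi t - pc L lo hi s := by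
  rw [pc_eq _ h, pc_eq _ h, pc_eq _ h, pc_eq _ h]
  simp only [id]
  set x := max lo (min s hi) with hx
  set y := max lo (min t hi) with hy
  have hxy : x ≤ y := max_le_max le_rfl (min_le_min hst le_rfl)
  rcases hxy.eq_or_lt with h1 | h1
  · rw [h1]
    simp
  · have hsh : s < hi := by
      by_contra hc
      push Not at hc
      have h2 : x = hi := by rw [hx, min_eq_right hc, max_eq_right h]
      have h3 : y = hi := by rw [hy, min_eq_right (hc.trans hst), max_eq_right h]
      rw [h2, h3] at h1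
      exact lt_irrefl _ h1
    have hsx : s ≤ x := by
      rw [hx, min_eq_left hsh.le]
      exact le_max_right _ _
    have hx0 : 0 < x := hs.trans_le hsx
    have h2 := L_ineq hx0 hxy
    have h3 : Real.log s ≤ Real.log x := Real.log_le_log hs hsx
    nlinarith

theorem continuous_pc (lo hi : ℝ) : Continuous (pc id lo hi) := by
  unfold pc
  simp only [id]
  fun_prop

/-- a distribution function `H` with its logarithmic integral `G` -/
structure Pair (H G : ℝ → ℝ) : Prop where
  cont : Continuous H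
  mono : Monotone H
  zero : H 0 = 0
  one : H 1 = 1
  key : ∀ s t : ℝ, 0 < s → s ≤ t → Real.log s * (H t - H s) ≤ G t - G s

/-- the cell boundaries -/
theorem Pair.exists_tops {H G : ℝ → ℝ} (h : Pair H G) {n : ℕ} (hn : 1 ≤ n) {K : ℝ}
    (hK : ∀ a : ℝ, 0 ≤ a → a ≤ 1 → (n : ℝ) * H a = 1 → -(n * G a) ≤ K) :
    ∃ t : ℕ → ℝ, (∀ c, 0 ≤ t c) ∧
      (∀ c ∈ Icc 1 n, ∀ a : ℝ, t c < a → a ≤ 1 → (c : ℝ) ≤ n * H a) ∧
      ∏ c ∈ range n, t (c + 1) ≤ Real.exp (n * G 1 + K) := by
  have hn' : (0 : ℝ) < n := by exact_mod_cast hn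
  have hex : ∀ c : ℕ, ∃ x : ℝ, (c ≤ n → 0 ≤ x ∧ x ≤ 1 ∧ H x = c / n) ∧ (c = n → x = 1) ∧ 0 ≤ x := by
    intro c
    rcases lt_trichotomy c n with hc | hc | hc
    · have h1 : (c : ℝ) / n ∈ Set.Icc (H 0) (H 1) := by
        rw [h.zero, h.one]
        refine ⟨by positivity, ?_⟩
        rw [div_le_one hn']
        exact_mod_cast hc.le
      obtain ⟨x, hx, hx2⟩ := intermediate_value_Icc zero_le_one h.cont.continuousOn h1
      exact ⟨x, fun _ => ⟨hx.1, hx.2, hx2⟩, fun h => absurd h hc.ne, hx.1⟩
    · refine ⟨1, fun _ => ⟨zero_le_one, le_rfl, ?_⟩, fun _ => rfl, zero_le_one⟩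
      rw [h.one, hc, div_self hn'.ne']
    · exact ⟨0, fun h => absurd h (not_le.2 hc), fun h => absurd h hc.ne', le_rfl⟩
  choose t ht using hex
  refine ⟨t, fun c => (ht c).2.2, ?_, ?_⟩
  · intro c hc a ha _
    have h1 := ((ht c).1 (mem_Icc.1 hc).2).2.2
    have h2 := h.mono ha.le
    rw [h1, div_le_iff₀ hn'] at h2
    linarith
  · have hpos : ∀ c, 1 ≤ c → c ≤ n → 0 < t c := by
      intro c hc1 hc
      rcases ((ht c).2.2).eq_or_lt with h0 | h0
      · exfalso
        have h1 := ((ht c).1 hc).2.2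
        rw [← h0, h.zero] at h1
        have : (0 : ℝ) < (c : ℝ) / n := by
          have : (0 : ℝ) < c := by exact_mod_cast hc1
          positivity
        linarith
      · exact h0
    have hlt : ∀ c, 1 ≤ c → c + 1 ≤ n → t c ≤ t (c + 1) := by
      intro c hc1 hc
      by_contra hcon
      push Not at hcon
      have h2 := h.mono hcon.le
      rw [((ht c).1 (by omega)).2.2, ((ht (c + 1)).1 hc).2.2, div_le_div_iff_of_pos_right hn'] at h2
      push_cast at h2
      linarith
    have hstep : ∀ m, 1 ≤ m → m ≤ n → (∑ c ∈ range (m - 1), Real.log (t (c + 1))) ≤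
        n * (G (t m) - G (t 1)) := by
      intro m hm1
      induction m, hm1 using Nat.le_induction with
      | base => intro _; simp
      | succ m hm ih =>
        intro hmn
        have h1 := ih (by omega)
        have h2 : m + 1 - 1 = (m - 1) + 1 := by omega
        rw [h2, sum_range_succ, Nat.sub_add_cancel hm]
        have h3 := h.key (t m) (t (m + 1)) (hpos m hm (by omega)) (hlt m hm hmn)
        rw [((ht m).1 (by omega)).2.2, ((ht (m + 1)).1 hmn).2.2] at h3
        have h4 : Real.log (t m) ≤ n * (G (t (m + 1)) - G (t m)) := by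
          have h5 : Real.log (t m) * (((m + 1 : ℕ) : ℝ) / n - m / n) = Real.log (t m) / n := by
            push_cast
            field_simp
            ring
          rw [h5, div_le_iff₀ hn'] at h3
          linarith
        nlinarith
    have h1 := hstep n hn le_rfl
    have htn : t n = 1 := (ht n).2.1 rfl
    have h2 : ∏ c ∈ range n, t (c + 1) = Real.exp (∑ c ∈ range (n - 1), Real.log (t (c + 1))) := by
      rw [Real.exp_sum]
      obtain ⟨m, rfl⟩ := Nat.exists_eq_succ_of_ne_zero (by omega : n ≠ 0)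
      rw [Nat.succ_eq_add_one, Nat.add_sub_cancel, prod_range_succ]
      rw [show t (m + 1) = 1 from htn, mul_one]
      refine prod_congr rfl fun c hc => ?_
      have := mem_range.1 hc
      rw [Real.exp_log (hpos _ (by omega) (by omega))]
    rw [h2]
    apply Real.exp_le_exp.2
    have h3 := (ht 1).1 hn
    have h4 := hK (t 1) h3.1 h3.2.1 (by rw [h3.2.2]; field_simp; simp)
    rw [htn] at h1
    linarith

end Pool.Agent.Helper21.Cn
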